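import Mathlib
import Pool.Agent.J4.H31.DV.Rav2
import Pool.Agent.J4.H38.BP.Defs

/-! Project BP (helper38), piece B2: the local densities of almost all sets of shifts, relative to a fixed set. -/

set_option autoImplicit false

namespace Pool.Agent.J4.H40.BP

open Finset Filter
open Pool.Agent.Y822 (inv_sq_gt)
open Pool.Agent.J4.H38.BP (eZ PB GB)
open Pool.Agent.J4.H31.DV (loc one_sub_sum_le_prod sum_one sum_two)
open Pool.Agent.H373R2.T7 (pz mem_pz)

/-- from the primes that are bad for some index to those of the single indices -/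
lemma gen_pairs {ι : Type*} (I : Finset ι) (F : Finset ℕ) (hF : ∀ p ∈ F, 1 ≤ p) (bd : ι → ℕ → Prop)
    [∀ i p, Decidable (bd i p)] (c : ℝ) (hc : 0 ≤ c) (K : ℕ) (hI : I.card ≤ K) :
    ∏ p ∈ F.filter (fun p => ∃ i ∈ I, bd i p), (1 + c / (p : ℝ)) - 1 ≤
      ∑ i ∈ I, (∏ p ∈ F.filter (fun p => bd i p), (1 + (1 + c) ^ K / (p : ℝ)) - 1) := by
  classical
  have hC1 : (1 : ℝ) ≤ (1 + c) ^ K := one_le_pow₀ (by linarith)
  have hge : ∀ i, 0 ≤ ∏ p ∈ F.filter (fun p => bd i p), (1 + (1 + c) ^ K / (p : ℝ)) - 1 := by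
    intro i
    have : ∏ _p ∈ F.filter (fun p => bd i p), (1 : ℝ) ≤
        ∏ p ∈ F.filter (fun p => bd i p), (1 + (1 + c) ^ K / (p : ℝ)) := by
      refine prod_le_prod (fun _ _ => zero_le_one) fun p _ => ?_
      have : 0 ≤ (1 + c) ^ K / (p : ℝ) := by positivity
      linarith
    rw [prod_const_one] at this
    linarith
  rcases I.eq_empty_or_nonempty with rfl | hne
  · simp
  obtain ⟨z, hz, hmax⟩ := exists_max_image I
    (fun z => ∏ p ∈ F.filter (fun p => bd z p), (1 + c / (p : ℝ))) hne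
  have h1 : ∏ p ∈ F.filter (fun p => ∃ i ∈ I, bd i p), (1 + c / (p : ℝ)) ≤
      ∏ z ∈ I, ∏ p ∈ F.filter (fun p => bd z p), (1 + c / (p : ℝ)) := by
    have e1 : ∏ z ∈ I, ∏ p ∈ F.filter (fun p => bd z p), (1 + c / (p : ℝ)) =
        ∏ p ∈ F, ∏ z ∈ I, (if bd z p then 1 + c / (p : ℝ) else 1) := by
      rw [Finset.prod_comm]
      refine prod_congr rfl fun z _ => ?_
      rw [prod_filter]
    rw [e1, prod_filter]
    refine prod_le_prod (fun p _ => ?_) fun p _ => ?_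
    · split_ifs
      · positivity
      · exact zero_le_one
    · have hone : ∀ z ∈ I, (1 : ℝ) ≤ (if bd z p then 1 + c / (p : ℝ) else 1) := by
        intro z _
        split_ifs
        · have : 0 ≤ c / (p : ℝ) := by positivity
          linarith
        · exact le_rfl
      split_ifs with h
      · obtain ⟨i, hi, hb⟩ := h
        rw [← mul_prod_erase I _ hi, if_pos hb]
        refine le_mul_of_one_le_right (by positivity) ?_
        calc (1 : ℝ) = ∏ _z ∈ I.erase i, (1 : ℝ) := by rw [prod_const_one]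
          _ ≤ _ := prod_le_prod (fun _ _ => zero_le_one) fun z hz => hone z (mem_of_mem_erase hz)
      · calc (1 : ℝ) = ∏ _z ∈ I, (1 : ℝ) := by rw [prod_const_one]
          _ ≤ _ := prod_le_prod (fun _ _ => zero_le_one) hone
  have hM1 : 1 ≤ ∏ p ∈ F.filter (fun p => bd z p), (1 + c / (p : ℝ)) := by
    calc (1 : ℝ) = ∏ _p ∈ F.filter (fun p => bd z p), (1 : ℝ) := by rw [prod_const_one]
      _ ≤ _ := prod_le_prod (fun _ _ => zero_le_one) fun p _ => by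
        have : 0 ≤ c / (p : ℝ) := by positivity
        linarith
  have h2 : ∏ i ∈ I, ∏ p ∈ F.filter (fun p => bd i p), (1 + c / (p : ℝ)) ≤
      (∏ p ∈ F.filter (fun p => bd z p), (1 + c / (p : ℝ))) ^ K := by
    refine (prod_le_prod (fun x _ => prod_nonneg fun p _ => by positivity) hmax).trans ?_
    rw [prod_const]
    exact pow_le_pow_right₀ hM1 hI
  have h3 : (∏ p ∈ F.filter (fun p => bd z p), (1 + c / (p : ℝ))) ^ K ≤
      ∏ p ∈ F.filter (fun p => bd z p), (1 + (1 + c) ^ K / (p : ℝ)) := by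
    rw [← prod_pow]
    refine prod_le_prod (fun p _ => by positivity) fun p hp => ?_
    have hp1 : (1 : ℝ) ≤ p := by exact_mod_cast hF p (mem_filter.1 hp).1
    obtain ⟨u, hu⟩ : ∃ u, u = 1 / (p : ℝ) := ⟨_, rfl⟩
    have hu0 : 0 ≤ u := by rw [hu]; positivity
    have hu1 : u ≤ 1 := by rw [hu, div_le_one (by linarith)]; exact hp1
    have e1 : c / (p : ℝ) = u * c := by rw [hu]; ring
    have e2 : (1 + c) ^ K / (p : ℝ) = u * (1 + c) ^ K := by rw [hu]; ring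
    rw [e1, e2]
    have hgen : ∀ n : ℕ, (1 + u * c) ^ n ≤ 1 + u * ((1 + c) ^ n - 1) := by
      intro n
      induction n with
      | zero => simp
      | succ n ih =>
        rw [pow_succ]
        have g1 := mul_le_mul_of_nonneg_right ih (by positivity : 0 ≤ 1 + u * c)
        refine g1.trans ?_
        rw [pow_succ]
        have g2 : (1 : ℝ) ≤ (1 + c) ^ n := one_le_pow₀ (by linarith)
        have g3 : 0 ≤ u * ((1 - u) * (c * ((1 + c) ^ n - 1))) := by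
          have : 0 ≤ 1 - u := by linarith
          have : 0 ≤ (1 + c) ^ n - 1 := by linarith
          positivity
        nlinarith
    refine (hgen K).trans ?_
    nlinarith
  calc _ ≤ ∏ p ∈ F.filter (fun p => bd z p), (1 + (1 + c) ^ K / (p : ℝ)) - 1 := by linarith
    _ ≤ _ := single_le_sum (f := fun i => ∏ p ∈ F.filter (fun p => bd i p), (1 + (1 + c) ^ K / (p : ℝ)) - 1)
          (fun t _ => hge t) hz

/-- the bad primes of a set of shifts: the two families of indices -/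
def bad (a : ℕ → ℤ) : (ℕ × ℤ) ⊕ (ℕ × ℕ) → ℕ → Prop
  | Sum.inl z, p => (p : ℤ) ∣ a z.1 - z.2
  | Sum.inr z, p => (p : ℤ) ∣ (z.1 : ℤ) - z.2

instance (a : ℕ → ℤ) : ∀ i p, Decidable (bad a i p)
  | Sum.inl z, p => by unfold bad; infer_instance
  | Sum.inr z, p => by unfold bad; infer_instance

/-- the indices for a set `T` of shifts -/
def idx (S0 : Finset ℤ) (T : Finset ℕ) : Finset ((ℕ × ℤ) ⊕ (ℕ × ℕ)) := (T ×ˢ S0).disjSum T.offDiag

lemma card_idx {S0 : Finset ℤ} {T : Finset ℕ} {m k : ℕ} (hS : S0.card = m) (hT : T.card ≤ k) :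
    (idx S0 T).card ≤ k * m + k * k := by
  unfold idx
  rw [card_disjSum, card_product, hS, offDiag_card]
  have h1 : T.card * m ≤ k * m := Nat.mul_le_mul_right m hT
  have h2 : T.card * T.card ≤ k * k := Nat.mul_le_mul hT hT
  omega

/-- the number of the residues -/
lemma eZ_le (S0 : Finset ℤ) (T : Finset ℕ) (a : ℕ → ℤ) (p : ℕ) :
    eZ S0 p ≤ eZ (S0 ∪ T.image a) p ∧ eZ (S0 ∪ T.image a) p ≤ eZ S0 p + T.card := by
  classical
  unfold eZ
  constructor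
  · exact card_le_card (image_subset_image subset_union_left)
  · rw [image_union]
    refine (card_union_le _ _).trans ?_
    have : ((T.image a).image (fun s => s % (p : ℤ))).card ≤ T.card := card_image_le.trans card_image_le
    omega

lemma eZ_eq (S0 : Finset ℤ) (T : Finset ℕ) (a : ℕ → ℤ) (p : ℕ)
    (ha : ∀ s t : ℕ, a s - a t = s - t ∨ a s - a t = t - s) (h : ¬ ∃ i ∈ idx S0 T, bad a i p) :
    eZ (S0 ∪ T.image a) p = eZ S0 p + T.card := by
  classical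
  unfold eZ
  rw [image_union, card_union_of_disjoint, image_image]
  · congr 1
    refine card_image_of_injOn ?_
    intro s hs t ht hst
    by_contra hne
    apply h
    refine ⟨Sum.inr (s, t), ?_, ?_⟩
    · unfold idx
      rw [inr_mem_disjSum, mem_offDiag]
      exact ⟨hs, ht, hne⟩
    · change (p : ℤ) ∣ (s : ℤ) - t
      have h1 : a s % (p : ℤ) = a t % (p : ℤ) := hst
      have h2 : (p : ℤ) ∣ a s - a t := Int.ModEq.dvd (Int.ModEq.symm h1)
      rcases ha s t with h3 | h3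
      · rwa [h3] at h2
      · rw [h3] at h2
        have := (dvd_neg (a := (p : ℤ))).2 h2
        have e : -((t : ℤ) - s) = s - t := by ring
        rwa [e] at this
  · rw [disjoint_left]
    intro r hr hr'
    rw [mem_image] at hr hr'
    obtain ⟨x, hx, rfl⟩ := hr
    obtain ⟨u, hu, hux⟩ := hr'
    obtain ⟨t, ht, rfl⟩ := mem_image.1 hu
    apply h
    refine ⟨Sum.inl (t, x), ?_, ?_⟩
    · unfold idx
      rw [inl_mem_disjSum, mem_product]
      exact ⟨ht, hx⟩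
    · change (p : ℤ) ∣ a t - x
      exact Int.ModEq.dvd (Int.ModEq.symm hux)

/-- local inequalities -/
lemma locm {k m j ρ p : ℕ} (hj : j ≤ k) (hρ : ρ ≤ j) (hp : 2 * k + 2 * m + 2 ≤ p) :
    0 ≤ 1 - 1 / ((p : ℝ) - m) ∧ 0 ≤ 1 - (ρ : ℝ) / ((p : ℝ) - m) ∧
    (1 - 32 * (k : ℝ) ^ 2 * (1 / (p : ℝ) ^ 2)) * (1 - 1 / ((p : ℝ) - m)) ^ j ≤ 1 - (ρ : ℝ) / ((p : ℝ) - m) ∧
    (ρ = j → 1 - (ρ : ℝ) / ((p : ℝ) - m) ≤ (1 - 1 / ((p : ℝ) - m)) ^ j) ∧
    1 ≤ (1 + 4 * (k : ℝ) / p) * (1 - 1 / ((p : ℝ) - m)) ^ j ∧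
    1 - (ρ : ℝ) / ((p : ℝ) - m) ≤ 1 := by
  obtain ⟨h1, h2, h3, h4⟩ := loc (k := k) (j := j) (ρ := ρ) (p := p - m + 1) hj hρ (by omega)
  have e : (((p - m + 1 : ℕ) : ℝ)) = (p : ℝ) - m + 1 := by
    push_cast [Nat.cast_sub (by omega : m ≤ p)]
    ring
  have e1 : (((p - m + 1 : ℕ) : ℝ)) - 1 = (p : ℝ) - m := by rw [e]; ring
  rw [e1] at h1 h2 h3 h4
  have hk0 : (0 : ℝ) ≤ k := Nat.cast_nonneg k
  have hm0 : (0 : ℝ) ≤ m := Nat.cast_nonneg m
  have hpr : 2 * (k : ℝ) + 2 * m + 2 ≤ p := by exact_mod_cast hp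
  have hp0 : (0 : ℝ) < p := by linarith
  have hpm : 0 < (p : ℝ) - m := by linarith
  have hq : (p : ℝ) / 2 ≤ ((p - m + 1 : ℕ) : ℝ) := by rw [e]; linarith
  have hq0 : (0 : ℝ) < ((p - m + 1 : ℕ) : ℝ) := by linarith
  obtain ⟨q, hqq⟩ : ∃ q : ℝ, q = ((p - m + 1 : ℕ) : ℝ) := ⟨_, rfl⟩
  rw [← hqq] at h2 h4 hq hq0
  have hpos : 0 ≤ (1 - 1 / ((p : ℝ) - m)) ^ j := pow_nonneg h1 j
  have hinv : 1 / q ≤ 2 * (1 / (p : ℝ)) := by
    rw [mul_one_div, div_le_div_iff₀ hq0 hp0]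
    linarith
  have hinv0 : 0 ≤ 1 / q := by positivity
  have hρr : (ρ : ℝ) ≤ k := by exact_mod_cast hρ.trans hj
  refine ⟨h1, ?_, ?_, h3, ?_, ?_⟩
  · rw [sub_nonneg, div_le_one hpm]
    linarith
  · refine le_trans (mul_le_mul_of_nonneg_right ?_ hpos) h2
    have h5 := pow_le_pow_left₀ hinv0 hinv 2
    have e2 : 1 / q ^ 2 = (1 / q) ^ 2 := by rw [div_pow, one_pow]
    have e3 : 1 / (p : ℝ) ^ 2 = (1 / (p : ℝ)) ^ 2 := by rw [div_pow, one_pow]
    rw [e2, e3]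
    have h6 : 8 * (k : ℝ) ^ 2 * (1 / q) ^ 2 ≤ 8 * (k : ℝ) ^ 2 * (2 * (1 / (p : ℝ))) ^ 2 :=
      mul_le_mul_of_nonneg_left h5 (by positivity)
    nlinarith
  · refine h4.trans (mul_le_mul_of_nonneg_right ?_ hpos)
    have h5 : 2 * (k : ℝ) * (1 / q) ≤ 2 * (k : ℝ) * (2 * (1 / (p : ℝ))) :=
      mul_le_mul_of_nonneg_left hinv (by positivity)
    have e2 : 2 * (k : ℝ) / q = 2 * (k : ℝ) * (1 / q) := by ring
    have e3 : 4 * (k : ℝ) / p = 2 * (k : ℝ) * (2 * (1 / (p : ℝ))) := by ring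
    rw [e2, e3]
    linarith
  · have : 0 ≤ (ρ : ℝ) / ((p : ℝ) - m) := by positivity
    linarith

/-- the two-sided bound for one set of shifts -/
lemma PB_GB {k m w y : ℕ} (hw : 2 * k + 2 * m + 2 ≤ w) (hkw : 32 * (k : ℝ) ^ 2 ≤ w) {S0 : Finset ℤ}
    (hS : ∀ p : ℕ, p.Prime → w < p → eZ S0 p = m) (a : ℕ → ℤ)
    (ha : ∀ s t : ℕ, a s - a t = s - t ∨ a s - a t = t - s) {T : Finset ℕ} (hTk : T.card ≤ k) :
    (1 - 32 * (k : ℝ) ^ 2 / w) * GB m w y ^ T.card ≤ PB S0 (T.image a) w y ∧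
    PB S0 (T.image a) w y ≤ GB m w y ^ T.card *
      ∏ p ∈ ((pz y).filter (fun p => w < p)).filter (fun p => ∃ i ∈ idx S0 T, bad a i p), (1 + 4 * (k : ℝ) / p) ∧
    0 ≤ GB m w y := by
  classical
  obtain ⟨j, hj⟩ : ∃ j, j = T.card := ⟨_, rfl⟩
  have hk0 : (0 : ℝ) ≤ k := Nat.cast_nonneg k
  have hw0 : (0 : ℝ) < w := by exact_mod_cast (by omega : 0 < w)
  have hmem : ∀ p ∈ (pz y).filter (fun p => w < p), p.Prime ∧ w < p ∧ 2 * k + 2 * m + 2 ≤ p := by
    intro p hp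
    rw [mem_filter, mem_pz] at hp
    exact ⟨hp.1.2, hp.2, by omega⟩
  obtain ⟨ρ, hρ⟩ : ∃ ρ : ℕ → ℕ, ρ = fun p => eZ (S0 ∪ T.image a) p - m := ⟨_, rfl⟩
  have hρj : ∀ p ∈ (pz y).filter (fun p => w < p), ρ p ≤ j ∧
      ((eZ (S0 ∪ T.image a) p : ℝ) - eZ S0 p) / ((p : ℝ) - eZ S0 p) = (ρ p : ℝ) / ((p : ℝ) - m) := by
    intro p hp
    obtain ⟨h1, h2, _⟩ := hmem p hp
    have h3 := eZ_le S0 T a p
    rw [hS p h1 h2] at h3
    rw [hS p h1 h2, hρ]
    refine ⟨by simp only; omega, ?_⟩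
    simp only
    rw [Nat.cast_sub h3.1]
  have hPB : PB S0 (T.image a) w y = ∏ p ∈ (pz y).filter (fun p => w < p), (1 - (ρ p : ℝ) / ((p : ℝ) - m)) := by
    unfold PB
    refine prod_congr rfl fun p hp => ?_
    rw [(hρj p hp).2]
  rw [← hj] at hTk ⊢
  have hloc := fun p (hp : p ∈ (pz y).filter (fun p => w < p)) =>
    locm (p := p) (k := k) (m := m) (j := j) (ρ := ρ p) hTk (hρj p hp).1 (hmem p hp).2.2
  have hGG0 : 0 ≤ GB m w y := prod_nonneg fun p hp => (hloc p hp).1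
  have hGGj : GB m w y ^ j = ∏ p ∈ (pz y).filter (fun p => w < p), (1 - 1 / ((p : ℝ) - m)) ^ j := by
    unfold GB
    rw [prod_pow]
  have hsmall : ∀ p ∈ (pz y).filter (fun p => w < p), 0 ≤ 32 * (k : ℝ) ^ 2 * (1 / (p : ℝ) ^ 2) ∧
      32 * (k : ℝ) ^ 2 * (1 / (p : ℝ) ^ 2) ≤ 1 := by
    intro p hp
    obtain ⟨h1, h2, h3⟩ := hmem p hp
    refine ⟨by positivity, ?_⟩
    have h4 : (w : ℝ) ≤ p := by exact_mod_cast h2.le
    have h5 : (1 : ℝ) ≤ p := by exact_mod_cast (by omega : 1 ≤ p)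
    rw [mul_one_div, div_le_one (by positivity)]
    nlinarith
  refine ⟨?_, ?_, hGG0⟩
  · have h1 : 1 - 32 * (k : ℝ) ^ 2 / w ≤
        ∏ p ∈ (pz y).filter (fun p => w < p), (1 - 32 * (k : ℝ) ^ 2 * (1 / (p : ℝ) ^ 2)) := by
      refine le_trans ?_ (one_sub_sum_le_prod _ _ hsmall)
      rw [← mul_sum]
      have h2 := inv_sq_gt (y := w) (by omega) ((pz y).filter (fun p => w < p)) (fun p hp => (hmem p hp).2.1)
      have h3 := mul_le_mul_of_nonneg_left h2 (by positivity : 0 ≤ 32 * (k : ℝ) ^ 2)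
      have h4 : 32 * (k : ℝ) ^ 2 * (1 / w) = 32 * (k : ℝ) ^ 2 / w := by ring
      rw [h4] at h3
      linarith
    refine (mul_le_mul_of_nonneg_right h1 (pow_nonneg hGG0 j)).trans ?_
    rw [hGGj, hPB, ← prod_mul_distrib]
    refine prod_le_prod (fun p hp => ?_) fun p hp => (hloc p hp).2.2.1
    exact mul_nonneg (by have := (hsmall p hp).2; linarith) (pow_nonneg (hloc p hp).1 j)
  · rw [hPB, hGGj, prod_filter (fun p => ∃ i ∈ idx S0 T, bad a i p), ← prod_mul_distrib]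
    refine prod_le_prod (fun p hp => (hloc p hp).2.1) fun p hp => ?_
    split_ifs with h
    · have h2 := (hloc p hp).2.2.2.2.2
      have h3 := (hloc p hp).2.2.2.2.1
      linarith
    · rw [mul_one]
      refine (hloc p hp).2.2.2.1 ?_
      have h4 := eZ_eq S0 T a p ha h
      rw [hS p (hmem p hp).1 (hmem p hp).2.1] at h4
      rw [hρ, hj]
      simp only
      omega

/-- **B2** -/
theorem bav2 (k m : ℕ) : ∃ (C Ca : ℝ) (w₀ : ℕ), 0 < C ∧ 0 ≤ Ca ∧ 2 ≤ w₀ ∧ ∀ w : ℕ, w₀ ≤ w →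
    ∀ S0 : Finset ℤ, S0.card = m → (∀ p : ℕ, p.Prime → w < p → eZ S0 p = m) →
    ∀ (y : ℕ) (A : Finset ℕ) (a : ℕ → ℤ) (ζ : ℝ), w ≤ y → 0 ≤ ζ → ζ ≤ 1 → (∀ s t : ℕ, a s - a t = s - t ∨ a s - a t = t - s) →
    (∀ h ∈ S0, ∑ t ∈ A, (∏ p ∈ (pz y).filter (fun p => w < p ∧ (p : ℤ) ∣ a t - h), (1 + Ca / (p : ℝ)) - 1) ≤
      ζ * A.card) →
    (∀ s ∈ A, ∑ t ∈ A.erase s,
      (∏ p ∈ (pz y).filter (fun p => w < p ∧ (p : ℤ) ∣ (s : ℤ) - t), (1 + Ca / (p : ℝ)) - 1) ≤ ζ * A.card) →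
    ∀ j ≤ k, ∑ T ∈ A.powersetCard j, |PB S0 (T.image a) w y - GB m w y ^ j| ≤
      C * (ζ + 1 / w) * (GB m w y * A.card) ^ j := by
  classical
  have hk0 : (0 : ℝ) ≤ k := Nat.cast_nonneg k
  have hm0 : (0 : ℝ) ≤ m := Nat.cast_nonneg m
  obtain ⟨C, hC⟩ : ∃ C, C = (1 + 4 * (k : ℝ)) ^ (k * m + k * k) := ⟨_, rfl⟩
  have hC0 : 0 ≤ C := by rw [hC]; positivity
  refine ⟨32 * (k : ℝ) ^ 2 + m + 1, C, (2 * k + 2 * m + 2) + ⌈32 * (k : ℝ) ^ 2⌉₊, by positivity, hC0, by omega,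
    fun w hw S0 hS0 hS y A a ζ hwy hζ0 _ ha hr1 hr2 j hj => ?_⟩
  have hwc1 : ⌈32 * (k : ℝ) ^ 2⌉₊ ≤ w := by omega
  have hwr1 : 32 * (k : ℝ) ^ 2 ≤ w := (Nat.le_ceil _).trans (Nat.cast_le.2 hwc1)
  have hw0 : (0 : ℝ) < w := by exact_mod_cast (by omega : 0 < w)
  have hwk : 2 * k + 2 * m + 2 ≤ w := by omega
  obtain ⟨δ, hδ⟩ : ∃ δ, δ = 32 * (k : ℝ) ^ 2 / w := ⟨_, rfl⟩
  have hδ0 : 0 ≤ δ := by rw [hδ]; positivity
  obtain ⟨f, hf⟩ : ∃ f : ℕ → ℝ, f = fun t => ∑ h ∈ S0,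
      (∏ p ∈ (pz y).filter (fun p => w < p ∧ (p : ℤ) ∣ a t - h), (1 + C / (p : ℝ)) - 1) := ⟨_, rfl⟩
  obtain ⟨g, hg⟩ : ∃ g : ℕ → ℕ → ℝ, g = fun (s t : ℕ) =>
      ∏ p ∈ (pz y).filter (fun p => w < p ∧ (p : ℤ) ∣ (s : ℤ) - t), (1 + C / (p : ℝ)) - 1 := ⟨_, rfl⟩
  have hge1 : ∀ F : Finset ℕ, 0 ≤ ∏ p ∈ F, (1 + C / (p : ℝ)) - 1 := by
    intro F
    have : ∏ _p ∈ F, (1 : ℝ) ≤ ∏ p ∈ F, (1 + C / (p : ℝ)) := by
      refine prod_le_prod (fun _ _ => zero_le_one) fun p _ => ?_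
      have : 0 ≤ C / (p : ℝ) := by positivity
      linarith
    rw [prod_const_one] at this
    linarith
  have hf0 : ∀ t, 0 ≤ f t := fun t => by
    rw [hf]
    exact sum_nonneg fun h _ => hge1 _
  have hg0 : ∀ s t, 0 ≤ g s t := fun s t => by
    rw [hg]
    exact hge1 _
  have hG0 : 0 ≤ GB m w y := (PB_GB (k := k) (y := y) hwk hwr1 hS a ha (T := ∅) (by simp)).2.2
  have hpt : ∀ T ∈ A.powersetCard j, |PB S0 (T.image a) w y - GB m w y ^ j| ≤ GB m w y ^ j * (δ +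
      (∑ t ∈ T, f t + ∑ s ∈ T, ∑ t ∈ T.erase s, g s t)) := by
    intro T hT
    rw [mem_powersetCard] at hT
    obtain ⟨h1, h2, h3⟩ := PB_GB (k := k) (y := y) hwk hwr1 hS a ha (by omega : T.card ≤ k)
    have h4 := gen_pairs (idx S0 T) ((pz y).filter (fun p => w < p))
      (fun p hp => (mem_pz.1 (mem_filter.1 hp).1).2.one_lt.le) (bad a) (4 * (k : ℝ)) (by positivity)
      (k * m + k * k) (card_idx hS0 (by omega))
    rw [← hC] at h4
    rw [hT.2] at h1 h2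
    rw [← hδ] at h1
    have h5 : ∑ i ∈ idx S0 T, (∏ p ∈ ((pz y).filter (fun p => w < p)).filter (fun p => bad a i p),
        (1 + C / (p : ℝ)) - 1) = ∑ t ∈ T, f t + ∑ s ∈ T, ∑ t ∈ T.erase s, g s t := by
      unfold idx
      rw [sum_disjSum]
      congr 1
      · rw [sum_product, hf]
        refine sum_congr rfl fun t _ => sum_congr rfl fun h _ => ?_
        rw [filter_filter]
        congr 2
      · rw [hg]
        have h6 : T.offDiag = (T ×ˢ T).filter (fun z => z.1 ≠ z.2) := by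
          ext z
          rw [mem_offDiag, mem_filter, mem_product, and_assoc]
        rw [h6, sum_filter, sum_product]
        refine sum_congr rfl fun s hs => ?_
        have h7 : T.erase s = T.filter (fun t => s ≠ t) := by
          ext t
          rw [mem_erase, mem_filter]
          exact ⟨fun h => ⟨h.2, fun e => h.1 e.symm⟩, fun h => ⟨fun e => h.2 e.symm, h.1⟩⟩
        rw [h7, sum_filter]
        refine sum_congr rfl fun t _ => ?_
        by_cases hst : s = t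
        · simp [hst]
        · rw [if_pos hst, if_pos hst, filter_filter]
          congr 2
    rw [h5] at h4
    have hGj : 0 ≤ GB m w y ^ j := pow_nonneg hG0 j
    obtain ⟨S, hS⟩ : ∃ S, S = ∑ t ∈ T, f t + ∑ s ∈ T, ∑ t ∈ T.erase s, g s t := ⟨_, rfl⟩
    have hS0 : 0 ≤ S := by
      rw [hS]
      exact add_nonneg (sum_nonneg fun t _ => hf0 t) (sum_nonneg fun s _ => sum_nonneg fun t _ => hg0 s t)
    rw [← hS] at h4 ⊢
    rw [abs_le]
    constructor
    · have h7 : 0 ≤ GB m w y ^ j * S := mul_nonneg hGj hS0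
      nlinarith
    · have h6 := mul_le_mul_of_nonneg_left (by linarith [h4] :
        ∏ p ∈ ((pz y).filter (fun p => w < p)).filter (fun p => ∃ i ∈ idx S0 T, bad a i p),
          (1 + 4 * (k : ℝ) / p) ≤ 1 + S) hGj
      have h7 : 0 ≤ GB m w y ^ j * δ := by positivity
      nlinarith
  have hgoal : ∑ T ∈ A.powersetCard j, |PB S0 (T.image a) w y - GB m w y ^ j| ≤
      (δ + (m + 1) * ζ) * (GB m w y * A.card) ^ j := by
    refine (sum_le_sum hpt).trans ?_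
    rw [← mul_sum, mul_pow, mul_left_comm]
    refine mul_le_mul_of_nonneg_left ?_ (pow_nonneg hG0 j)
    rw [sum_add_distrib, sum_add_distrib, sum_const, nsmul_eq_mul]
    have hcard : (((A.powersetCard j).card : ℕ) : ℝ) ≤ (A.card : ℝ) ^ j := by
      rw [card_powersetCard]
      exact_mod_cast Nat.choose_le_pow A.card j
    have g1 := sum_one A j f hf0
    have g2 := sum_two A j g hg0
    have f1 : ∑ t ∈ A, f t ≤ m * ζ * A.card := by
      rw [hf]
      simp only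
      rw [sum_comm]
      refine (sum_le_sum hr1).trans (le_of_eq ?_)
      rw [sum_const, nsmul_eq_mul, hS0]
      ring
    have f2 : ∑ s ∈ A, ∑ t ∈ A.erase s, g s t ≤ A.card * (ζ * A.card) := by
      rw [← nsmul_eq_mul, ← sum_const, hg]
      exact sum_le_sum fun s hs => hr2 s hs
    have hcj : (0 : ℝ) ≤ (A.card : ℝ) ^ j := by positivity
    rcases Nat.eq_zero_or_pos A.card with h0 | hpos
    · have hAe : A = ∅ := card_eq_zero.1 h0
      have h1 : ∀ T ∈ A.powersetCard j, T = ∅ := fun T hT => by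
        have := (mem_powersetCard.1 hT).1
        rw [hAe] at this
        exact subset_empty.1 this
      have e1 : ∑ T ∈ A.powersetCard j, ∑ t ∈ T, f t = 0 :=
        sum_eq_zero fun T hT => by rw [h1 T hT, sum_empty]
      have e2 : ∑ T ∈ A.powersetCard j, ∑ s ∈ T, ∑ t ∈ T.erase s, g s t = 0 :=
        sum_eq_zero fun T hT => by rw [h1 T hT, sum_empty]
      rw [e1, e2]
      have := mul_le_mul_of_nonneg_right hcard hδ0
      have h3 : 0 ≤ (m + 1) * ζ * (A.card : ℝ) ^ j := by positivity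
      nlinarith
    · have hc : (0 : ℝ) < A.card := by exact_mod_cast hpos
      have k1 : ∑ T ∈ A.powersetCard j, ∑ t ∈ T, f t ≤ m * ζ * (A.card : ℝ) ^ j := by
        have h1 := g1.trans (mul_le_mul_of_nonneg_left f1 hcj)
        refine le_of_mul_le_mul_right (h1.trans (le_of_eq ?_)) hc
        ring
      have k2 : ∑ T ∈ A.powersetCard j, ∑ s ∈ T, ∑ t ∈ T.erase s, g s t ≤
          ζ * (A.card : ℝ) ^ j := by
        have h1 := g2.trans (mul_le_mul_of_nonneg_left f2 hcj)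
        refine le_of_mul_le_mul_right (h1.trans (le_of_eq ?_)) (pow_pos hc 2)
        ring
      have k3 := mul_le_mul_of_nonneg_right hcard hδ0
      nlinarith
  refine hgoal.trans (mul_le_mul_of_nonneg_right ?_ (by positivity))
  have e : 32 * (k : ℝ) ^ 2 / w = 32 * (k : ℝ) ^ 2 * (1 / w) := by ring
  rw [hδ, e]
  have h1 : 0 ≤ 32 * (k : ℝ) ^ 2 * ζ := by positivity
  have h2 : 0 ≤ 1 / (w : ℝ) := by positivity
  have h3 : 0 ≤ (m : ℝ) * (1 / w) := by positivity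
  nlinarith

end Pool.Agent.J4.H40.BP
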